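import Pool.Agent.Y229.PS.Emb

set_option autoImplicit false

/-! Generic complete intersections: the strong monodromy conjecture. -/

namespace Pool.Agent.Y229.PS

open MvPolynomial
open Pool.Agent.W749.JI (fam)
open Pool.Agent.W425.SM (sparse SmoothFan Principal)
open Pool.Agent.W422.GC (topZetaGLocal)
open Pool.Agent.Y229.RE

variable {N k r : ℕ}

/-- The exponent `w` lies in the Newton polyhedron (convex hull plus positive orthant) of the `m j`
with `π j = i` or `π j = 0`. -/
def NPT {n : ℕ} (π : Fin r → Fin (k + 1)) (m : Fin r → Fin n → ℕ) (i : Fin (k + 1))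
    (w : Fin n →₀ ℕ) : Prop :=
  ∃ l : Fin r → ℝ, (∀ j, 0 ≤ l j) ∧ ∑ j, l j = 1 ∧ (∀ j, l j ≠ 0 → π j = i ∨ π j = 0) ∧
    ∀ x, ∑ j, l j * (m j x : ℝ) ≤ (w x : ℝ)

/-- `∑_{π j = i} a_j x ^ (m_j) + H_i` -/
noncomputable def tup {n : ℕ} {F : Subfield ℂ} (π : Fin r → Fin (k + 1)) (m : Fin r → Fin n → ℕ)
    (a : Fin r → ℂ) (H : Fin (k + 1) → MvPolynomial (Fin n) F) (i : Fin (k + 1)) :
    MvPolynomial (Fin n) ℂ :=
  fam π m a i + MvPolynomial.map (algebraMap F ℂ) (H i)

lemma NPT.ne {n : ℕ} {π : Fin r → Fin (k + 1)} {m : Fin r → Fin n → ℕ} {i : Fin (k + 1)}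
    {w : Fin n →₀ ℕ} (h : NPT π m i w) (hm : ∀ j, m j ≠ 0) : w ≠ 0 := by
  rintro rfl
  obtain ⟨l, h1, h2, -, h4⟩ := h
  have h5 : ∀ j, l j = 0 := by
    intro j
    obtain ⟨x, hx⟩ : ∃ x, m j x ≠ 0 := by
      by_contra hcon
      push Not at hcon
      exact hm j (funext hcon)
    have h6 := h4 x
    rw [Finsupp.coe_zero, Pi.zero_apply, Nat.cast_zero] at h6
    have h7 : ∀ j', 0 ≤ l j' * (m j' x : ℝ) := fun j' => mul_nonneg (h1 j') (Nat.cast_nonneg _)
    have h8 := (Finset.sum_eq_zero_iff_of_nonneg (fun j' _ => h7 j')).1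
      (le_antisymm h6 (Finset.sum_nonneg fun j' _ => h7 j')) j (Finset.mem_univ j)
    rcases mul_eq_zero.1 h8 with h9 | h9
    · exact h9
    · exact absurd (by exact_mod_cast h9) hx
  simp only [h5, Finset.sum_const_zero] at h2
  exact zero_ne_one h2

lemma fam_zero {n : ℕ} (π : Fin r → Fin (k + 1)) (m : Fin r → Fin n → ℕ) (hm : ∀ j, m j ≠ 0)
    (a : Fin r → ℂ) (i : Fin (k + 1)) : constantCoeff (fam π m a i) = 0 := by
  unfold fam
  rw [map_sum]
  refine Finset.sum_eq_zero fun j _ => ?_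
  rw [map_mul, map_prod]
  obtain ⟨v, hv⟩ : ∃ v, m j v ≠ 0 := by
    by_contra hcon
    push Not at hcon
    exact hm j (funext hcon)
  rw [Finset.prod_eq_zero (Finset.mem_univ v), mul_zero]
  rw [map_pow, MvPolynomial.constantCoeff_X, zero_pow hv]

lemma tup_zero {n : ℕ} {F : Subfield ℂ} (π : Fin r → Fin (k + 1)) (m : Fin r → Fin n → ℕ)
    (hm : ∀ j, m j ≠ 0) (a : Fin r → ℂ) (H : Fin (k + 1) → MvPolynomial (Fin n) F)
    (hH : ∀ i, ∀ w ∈ (H i).support, NPT π m i w) (i : Fin (k + 1)) :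
    constantCoeff (tup π m a H i) = 0 := by
  unfold tup
  rw [map_add, fam_zero π m hm, zero_add, constantCoeff_eq, coeff_map]
  by_contra hne
  have h1 : (0 : Fin n →₀ ℕ) ∈ (H i).support := by
    rw [mem_support_iff]
    intro h0
    apply hne
    rw [h0, map_zero]
  exact (hH i 0 h1).ne hm rfl

/-- `H_0 + ∑ y_i H_i` -/
noncomputable def hG {F : Subfield ℂ} (H : Fin (k + 1) → MvPolynomial (Fin (N + k)) F) :
    MvPolynomial (Fin (N + (k + k))) F :=
  rename emb (H 0) + ∑ i : Fin k, X (yv N i) * rename emb (H i.succ)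

lemma sparse_hG {F : Subfield ℂ} (π : Fin r → Fin (k + 1)) (m : Fin r → Fin (N + k) → ℕ)
    (a : Fin r → ℂ) (H : Fin (k + 1) → MvPolynomial (Fin (N + k)) F) :
    sparse (ex π m) a + MvPolynomial.map (algebraMap F ℂ) (hG H) =
      rename emb (tup π m a H 0) + ∑ i : Fin k, X (yv N i) * rename emb (tup π m a H i.succ) := by
  rw [sparse_ex]
  unfold hG tup
  simp only [map_add, map_sum, map_mul, map_X, map_rename, mul_add, Finset.sum_add_distrib]
  ring

lemma sum_exR (π : Fin r → Fin (k + 1)) (m : Fin r → Fin (N + k) → ℕ) (l : Fin r → ℝ)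
    (v : Fin (N + k)) : ∑ j, l j * (ex π m j (emb v) : ℝ) = ∑ j, l j * (m j v : ℝ) := by
  refine Finset.sum_congr rfl fun j _ => ?_
  refine Fin.addCases (fun i => ?_) (fun i => ?_) v
  · rw [emb_l, ex_x]
  · rw [emb_r, ex_z]

lemma forall_split {P : Fin (N + (k + k)) → Prop} (h1 : ∀ i : Fin (N + k), P (emb i))
    (h2 : ∀ i : Fin k, P (yv N i)) (i) : P i := by
  refine Fin.addCases (fun i => ?_) (fun i => ?_) i
  · have := h1 (Fin.castAdd k i)
    rwa [emb_l] at this
  · refine Fin.addCases (fun i => h2 i) (fun i => ?_) i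
    have := h1 (Fin.natAdd N i)
    rwa [emb_r] at this

lemma map_yv (w : Fin (N + k) →₀ ℕ) (i : Fin k) :
    Finsupp.mapDomain (emb : Fin (N + k) → Fin (N + (k + k))) w (yv N i) = 0 :=
  Finsupp.mapDomain_of_notMem_range _ _ (by
    rintro ⟨j, hj⟩
    exact emb_ne_y j i hj)

lemma np_hG {F : Subfield ℂ} (π : Fin r → Fin (k + 1)) (m : Fin r → Fin (N + k) → ℕ)
    (H : Fin (k + 1) → MvPolynomial (Fin (N + k)) F)
    (hH : ∀ i, ∀ w ∈ (H i).support, NPT π m i w) :
    ∀ w ∈ (hG H).support, Pool.Agent.W425.SV.NP (ex π m) w := by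
  classical
  intro w hw
  unfold hG at hw
  rcases Finset.mem_union.1 (MvPolynomial.support_add hw) with h1 | h1
  · rw [support_rename_of_injective emb_inj, Finset.mem_image] at h1
    obtain ⟨w', h2, rfl⟩ := h1
    obtain ⟨l, h3, h4, h5, h6⟩ := hH 0 w' h2
    refine ⟨l, h3, h4, forall_split (fun i => ?_) fun i => ?_⟩
    · rw [sum_exR, Finsupp.mapDomain_apply emb_inj]
      exact h6 i
    · rw [map_yv, Nat.cast_zero]
      refine (Finset.sum_eq_zero fun j _ => ?_).le
      by_cases h7 : l j = 0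
      · rw [h7, zero_mul]
      · have h8 : π j = 0 := by
          rcases h5 j h7 with h8 | h8 <;> exact h8
        rw [ex_y, if_neg, Nat.cast_zero, mul_zero]
        rw [h8]
        exact (Fin.succ_ne_zero i).symm
  · have h2 := MvPolynomial.support_sum h1
    rw [Finset.mem_biUnion] at h2
    obtain ⟨i0, -, h3⟩ := h2
    rw [mul_comm, MvPolynomial.support_mul_X, Finset.mem_map] at h3
    obtain ⟨w1, h4, rfl⟩ := h3
    rw [support_rename_of_injective emb_inj, Finset.mem_image] at h4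
    obtain ⟨w', h2, rfl⟩ := h4
    obtain ⟨l, h3, h4, h5, h6⟩ := hH i0.succ w' h2
    refine ⟨l, h3, h4, forall_split (fun i => ?_) fun i => ?_⟩
    · rw [sum_exR, addRightEmbedding_apply, Finsupp.add_apply, Finsupp.mapDomain_apply emb_inj,
        Finsupp.single_eq_of_ne (emb_ne_y i i0), add_zero]
      exact h6 i
    · rw [addRightEmbedding_apply, Finsupp.add_apply, map_yv, zero_add]
      by_cases h7 : i = i0
      · subst h7
        rw [Finsupp.single_eq_same, Nat.cast_one, ← h4]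
        refine Finset.sum_le_sum fun j _ => ?_
        rw [ex_y]
        split_ifs
        · rw [Nat.cast_one, mul_one]
        · rw [Nat.cast_zero, mul_zero]
          exact h3 j
      · rw [Finsupp.single_eq_of_ne (fun h => h7 (y_inj h)), Nat.cast_zero]
        refine (Finset.sum_eq_zero fun j _ => ?_).le
        by_cases h8 : l j = 0
        · rw [h8, zero_mul]
        · rw [ex_y, if_neg, Nat.cast_zero, mul_zero]
          rcases h5 j h8 with h9 | h9
          · rw [h9]
            intro h10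
            exact h7 (Fin.succ_injective _ h10).symm
          · rw [h9]
            exact (Fin.succ_ne_zero i).symm

/-- **The strong monodromy conjecture for functions on generic smooth complete intersections.** -/
theorem ci_strong (hr : 1 ≤ r) (F : Subfield ℂ) (π : Fin r → Fin (k + 1))
    (m : Fin r → Fin (N + k) → ℕ) (hinj : ∀ j j', π j = π j' → m j = m j' → j = j')
    (hm : ∀ j, m j ≠ 0) (H : Fin (k + 1) → MvPolynomial (Fin (N + k)) F)
    (hH : ∀ i, ∀ w ∈ (H i).support, NPT π m i w) :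
    ∃ g : MvPolynomial (Fin r) F, g ≠ 0 ∧ ∀ a : Fin r → ℂ, MvPolynomial.aeval a g ≠ 0 →
      (Matrix.of fun i j : Fin k => MvPolynomial.coeff (Finsupp.single (Fin.natAdd N j) 1)
        (tup π m a H i.succ)).det ≠ 0 →
      ∀ (f : MvPowerSeries (Fin N) ℂ) (q : Fin k → MvPowerSeries (Fin (N + k)) ℂ), f ≠ 0 →
        (∀ i, MvPowerSeries.constantCoeff (q i) = 0) →
        (tup π m a H 0 : MvPowerSeries (Fin (N + k)) ℂ) =
          MvPowerSeries.rename (Fin.castAdd k) f +
            ∑ i, q i * (tup π m a H i.succ : MvPowerSeries (Fin (N + k)) ℂ) →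
      ∀ b : Polynomial ℂ, IsFormalBFunction f b →
      ∀ R : SmoothFan (N + (k + k)), Principal (ex π m) R →
        ∃ P : Polynomial ℂ, algebraMap (Polynomial ℂ) (RatFunc ℂ)
          (b * (Polynomial.X - Polynomial.C (k : ℂ))) *
          unstab k 1 (topZetaGLocal (ex π m) R) = algebraMap (Polynomial ℂ) (RatFunc ℂ) P := by
  obtain ⟨g, hg0, hg⟩ := strong hr F (ex π m) (ex_inj π m hinj) (ex_ne_zero π m hm) (hG H)
    (np_hG π m H hH)
  refine ⟨g, hg0, fun a ha hdet f q hf0 hq hF b hb R hR => ?_⟩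
  have h0 := tup_zero π m hm a H hH
  have hB := becomes_emb (tup π m a H) (fun i => h0 i.succ) hdet f q hq hF
  have hf : MvPowerSeries.constantCoeff f = 0 := by
    have h1 := congrArg (MvPowerSeries.constantCoeff (σ := Fin (N + k)) (R := ℂ)) hF
    rw [const_coe, h0, map_add, map_sum, MvPowerSeries.constantCoeff_rename,
      Finset.sum_eq_zero (fun i _ => by rw [map_mul, hq, zero_mul]), add_zero] at h1
    exact h1.symm
  refine hg a ha N k rfl f hf0 hf ?_ b hb R hR
  rw [sparse_hG]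
  have h3 : (Fin.cast (rfl : N + (k + k) = N + (k + k))) = id := by
    funext i
    rfl
  rw [h3, MvPolynomial.rename_id_apply]
  exact hB

end Pool.Agent.Y229.PS
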