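import Pool.Agent.Y229.PS.Red
import Mathlib.RingTheory.MvPowerSeries.Order
import Mathlib.RingTheory.MvPowerSeries.Substitution

set_option autoImplicit false

/-! The chain rule for formal power series. -/

namespace Pool.Agent.Y229.PS

open MvPowerSeries

variable {n m : ℕ}

/-- the power `d` of the maximal ideal -/
def VV (d : ℕ) (g : MvPowerSeries (Fin n) ℂ) : Prop := (d : ℕ∞) ≤ g.order

lemma VV.pd {d : ℕ} {g : MvPowerSeries (Fin n) ℂ} (h : VV (d + 1) g) (i : Fin n) :
    VV d (pderiv ℂ i g) := by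
  refine nat_le_order fun e he => ?_
  rw [coeff_pderiv, coeff_of_lt_order, zero_mul]
  refine lt_of_lt_of_le ?_ h
  rw [map_add, Finsupp.degree_single]
  exact_mod_cast Nat.succ_lt_succ he

lemma VV.mulR {d : ℕ} {g : MvPowerSeries (Fin n) ℂ} (h : VV d g) (u : MvPowerSeries (Fin n) ℂ) :
    VV d (g * u) :=
  (h.trans le_self_add).trans le_order_mul

lemma VV.subst {d : ℕ} {g : MvPowerSeries (Fin n) ℂ} (h : VV d g)
    {a : Fin n → MvPowerSeries (Fin m) ℂ} (ha : ∀ i, constantCoeff (a i) = 0) :
    VV d (MvPowerSeries.subst a g) := by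
  have h1 := le_order_subst (hasSubst_of_constantCoeff_zero ha) g
  refine le_trans ?_ h1
  refine h.trans ?_
  have h2 : (1 : ℕ∞) ≤ ⨅ i, (a i).order :=
    le_iInf fun i => one_le_order_iff_constCoeff_eq_zero.2 (ha i)
  calc g.order = 1 * g.order := (one_mul _).symm
    _ ≤ _ := mul_le_mul_left h2 _

lemma VV.add {d : ℕ} {g h : MvPowerSeries (Fin n) ℂ} (hg : VV d g) (hh : VV d h) :
    VV d (g + h) := (le_min hg hh).trans min_order_le_add

lemma VV.neg {d : ℕ} {g : MvPowerSeries (Fin n) ℂ} (hg : VV d g) : VV d (-g) := by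
  unfold VV
  rw [order_neg]
  exact hg

lemma VV.zero (d : ℕ) : VV d (0 : MvPowerSeries (Fin n) ℂ) := by
  unfold VV
  rw [order_zero]
  exact le_top

lemma VV.sum {d : ℕ} {ι : Type} (S : Finset ι) (g : ι → MvPowerSeries (Fin n) ℂ)
    (h : ∀ i ∈ S, VV d (g i)) : VV d (∑ i ∈ S, g i) := by
  classical
  induction S using Finset.induction_on with
  | empty => exact VV.zero d
  | insert a S ha ih =>
    rw [Finset.sum_insert ha]
    exact (h a (Finset.mem_insert_self a S)).add (ih fun i hi => h i (Finset.mem_insert_of_mem hi))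

lemma eq_zero_of_VV {g : MvPowerSeries (Fin n) ℂ} (h : ∀ d, VV d g) : g = 0 := by
  rw [← order_eq_top_iff]
  refine ENat.eq_top_iff_forall_ge.2 fun d => h d

/-- the difference of the two sides of the chain rule -/
noncomputable def dl (a : Fin n → MvPowerSeries (Fin m) ℂ) (j : Fin m)
    (f : MvPowerSeries (Fin n) ℂ) : MvPowerSeries (Fin m) ℂ :=
  pderiv ℂ j (subst a f) - ∑ i, subst a (pderiv ℂ i f) * pderiv ℂ j (a i)

lemma dl_add {a : Fin n → MvPowerSeries (Fin m) ℂ} (ha : ∀ i, constantCoeff (a i) = 0)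
    (j : Fin m) (f g : MvPowerSeries (Fin n) ℂ) : dl a j (f + g) = dl a j f + dl a j g := by
  have hs := hasSubst_of_constantCoeff_zero ha
  unfold dl
  simp only [map_add, subst_add hs, add_mul, Finset.sum_add_distrib]
  ring

lemma dl_poly {a : Fin n → MvPowerSeries (Fin m) ℂ} (ha : ∀ i, constantCoeff (a i) = 0)
    (j : Fin m) (p : MvPolynomial (Fin n) ℂ) : dl a j (p : MvPowerSeries (Fin n) ℂ) = 0 := by
  classical
  have hs := hasSubst_of_constantCoeff_zero ha
  induction p using MvPolynomial.induction_on with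
  | C c =>
    unfold dl
    have h1 : (subst a (MvPolynomial.C c : MvPolynomial (Fin n) ℂ).toMvPowerSeries :
        MvPowerSeries (Fin m) ℂ) = MvPowerSeries.C c := by
      rw [subst_coe, MvPolynomial.aeval_C]
      rfl
    rw [h1, pderiv_C]
    simp only [pderiv_coe, MvPolynomial.pderiv_C, subst_coe, map_zero, zero_mul,
      Finset.sum_const_zero, sub_zero]
  | add p q hp hq =>
    rw [MvPolynomial.coe_add, dl_add ha, hp, hq, add_zero]
  | mul_X p k hp =>
    unfold dl at hp ⊢
    rw [sub_eq_zero] at hp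
    simp only [MvPolynomial.coe_mul, MvPolynomial.coe_X, subst_mul hs, subst_X hs,
      Derivation.leibniz, smul_eq_mul, subst_add hs]
    rw [hp]
    simp only [add_mul, Finset.sum_add_distrib]
    have h2 : ∑ i, subst a (MvPolynomial.toMvPowerSeries p) * subst a (pderiv ℂ i (X k)) *
        pderiv ℂ j (a i) = subst a (MvPolynomial.toMvPowerSeries p) * pderiv ℂ j (a k) := by
      rw [Finset.sum_eq_single k]
      · rw [pderiv_X_self]
        have h3 : (subst a (1 : MvPowerSeries (Fin n) ℂ) : MvPowerSeries (Fin m) ℂ) = 1 := by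
          rw [← coe_substAlgHom hs, map_one]
        rw [h3, mul_one]
      · intro i _ hi
        rw [pderiv_X_of_ne hi.symm]
        have h3 : (subst a (0 : MvPowerSeries (Fin n) ℂ) : MvPowerSeries (Fin m) ℂ) = 0 := by
          rw [← coe_substAlgHom hs, map_zero]
        rw [h3, mul_zero, zero_mul]
      · intro h
        exact absurd (Finset.mem_univ k) h
    rw [h2, sub_eq_zero, Finset.mul_sum]
    congr 1
    refine Finset.sum_congr rfl fun i _ => ?_
    ring

lemma dl_VV {a : Fin n → MvPowerSeries (Fin m) ℂ} (ha : ∀ i, constantCoeff (a i) = 0)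
    (j : Fin m) {d : ℕ} {g : MvPowerSeries (Fin n) ℂ} (hg : VV (d + 1) g) : VV d (dl a j g) := by
  unfold dl
  rw [sub_eq_add_neg]
  exact ((hg.subst ha).pd j).add (VV.neg (VV.sum _ _ fun i _ => ((hg.pd i).subst ha).mulR _))

/-- **The chain rule.** -/
theorem chain {a : Fin n → MvPowerSeries (Fin m) ℂ} (ha : ∀ i, constantCoeff (a i) = 0)
    (j : Fin m) (f : MvPowerSeries (Fin n) ℂ) :
    pderiv ℂ j (subst a f) = ∑ i, subst a (pderiv ℂ i f) * pderiv ℂ j (a i) := by
  rw [← sub_eq_zero]
  show dl a j f = 0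
  refine eq_zero_of_VV fun d => ?_
  have h1 : f = (truncTotal (d + 1) f : MvPolynomial (Fin n) ℂ).toMvPowerSeries +
      (f - (truncTotal (d + 1) f : MvPolynomial (Fin n) ℂ).toMvPowerSeries) := by ring
  rw [h1, dl_add ha, dl_poly ha, zero_add]
  refine dl_VV ha j (nat_le_order fun e he => ?_)
  rw [map_sub, MvPolynomial.coeff_coe, coeff_truncTotal _ he, sub_self]

/-- the derivative of a renamed power series -/
lemma pd_rename {ι : Fin n → Fin m} (hι : Function.Injective ι) (i : Fin n)
    (u : MvPowerSeries (Fin n) ℂ) : pderiv ℂ (ι i) (rename ι u) = rename ι (pderiv ℂ i u) := by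
  classical
  rw [rename_eq_subst, rename_eq_subst, chain (fun i => by simp)]
  rw [Finset.sum_eq_single i]
  · rw [Function.comp_apply, pderiv_X_self, mul_one]
  · intro k _ hk
    rw [Function.comp_apply, pderiv_X_of_ne (fun h => hk (hι h)), mul_zero]
  · intro h
    exact absurd (Finset.mem_univ i) h

lemma pd_rename_ne {ι : Fin n → Fin m} {j : Fin m} (hj : ∀ i, ι i ≠ j)
    (u : MvPowerSeries (Fin n) ℂ) : pderiv ℂ j (rename ι u) = 0 := by
  rw [rename_eq_subst, chain (fun i => by simp)]
  refine Finset.sum_eq_zero fun k _ => ?_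
  rw [Function.comp_apply, pderiv_X_of_ne (hj k), mul_zero]

end Pool.Agent.Y229.PS
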