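import Pool.Agent.Y229.PS.Stab
import Pool.Agent.Y229.RE.Loc

set_option autoImplicit false

/-! Functional equations of formal power series: changes of coordinates. -/

namespace Pool.Agent.Y229.PS

open MvPowerSeries
open Pool.Agent.Y229.GL (IsCoord jac DI DI_apply DI_phi)

variable {n N k : ℕ}

lemma DI_mem (φ : Fin n → MvPowerSeries (Fin n) ℂ) (i : Fin n) :
    ((DI φ i : Derivation ℂ _ _) : MvPowerSeries (Fin n) ℂ →ₗ[ℂ] MvPowerSeries (Fin n) ℂ) ∈
      DD n := by
  have e : ((DI φ i : Derivation ℂ _ _) : MvPowerSeries (Fin n) ℂ →ₗ[ℂ] _) =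
      ∑ j, LinearMap.mulLeft ℂ ((jac φ)⁻¹ j i) * pl j := by
    refine LinearMap.ext fun h => ?_
    rw [LinearMap.sum_apply]
    exact DI_apply φ i h
  rw [e]
  exact Subalgebra.sum_mem _ fun _ _ => Subalgebra.mul_mem _ (mul_mem _) (pl_mem _)

lemma DI_subst {φ : Fin n → MvPowerSeries (Fin n) ℂ} (hφ : IsCoord φ)
    (hφ0 : ∀ i, constantCoeff (φ i) = 0) (i : Fin n) (u : MvPowerSeries (Fin n) ℂ) :
    DI φ i (subst φ u) = subst φ (pderiv ℂ i u) := by
  rw [DI_apply]
  simp only [chain hφ0, Finset.mul_sum]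
  rw [Finset.sum_comm]
  have h1 : ∀ l, ∑ j, (jac φ)⁻¹ j i * (subst φ (pderiv ℂ l u) * pderiv ℂ j (φ l)) =
      subst φ (pderiv ℂ l u) * (if l = i then 1 else 0) := by
    intro l
    rw [← DI_phi hφ i l, DI_apply, Finset.mul_sum]
    refine Finset.sum_congr rfl fun j _ => ?_
    ring
  rw [Finset.sum_congr rfl fun l _ => h1 l]
  simp

lemma transport {φ : Fin n → MvPowerSeries (Fin n) ℂ} (hφ : IsCoord φ)
    (hφ0 : ∀ i, constantCoeff (φ i) = 0) (Q : Module.End ℂ (MvPowerSeries (Fin n) ℂ))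
    (hQ : Q ∈ DD n) : ∃ Q' ∈ DD n, ∀ u, subst φ (Q u) = Q' (subst φ u) := by
  have hs := hasSubst_of_constantCoeff_zero hφ0
  unfold DD at hQ
  induction hQ using Algebra.adjoin_induction with
  | mem P hP =>
    rcases hP with ⟨w, rfl⟩ | ⟨i, rfl⟩
    · exact ⟨_, mul_mem (subst φ w), fun u => subst_mul hs w u⟩
    · exact ⟨_, DI_mem φ i, fun u => (DI_subst hφ hφ0 i u).symm⟩
  | algebraMap c =>
    refine ⟨algebraMap ℂ _ c, Subalgebra.algebraMap_mem _ c, fun u => ?_⟩
    rw [Module.algebraMap_end_apply, Module.algebraMap_end_apply, ← coe_substAlgHom hs, map_smul]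
  | add P Q _ _ hP hQ =>
    obtain ⟨P', h1, h2⟩ := hP
    obtain ⟨Q', h3, h4⟩ := hQ
    refine ⟨P' + Q', Subalgebra.add_mem _ h1 h3, fun u => ?_⟩
    rw [LinearMap.add_apply, subst_add hs, h2, h4, LinearMap.add_apply]
  | mul P Q _ _ hP hQ =>
    obtain ⟨P', h1, h2⟩ := hP
    obtain ⟨Q', h3, h4⟩ := hQ
    refine ⟨P' * Q', Subalgebra.mul_mem _ h1 h3, fun u => ?_⟩
    rw [Module.End.mul_apply, h2, h4, Module.End.mul_apply]

/-- **Formal changes of coordinates.** -/
theorem coord {φ : Fin n → MvPowerSeries (Fin n) ℂ} (hφ : IsCoord φ)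
    (hφ0 : ∀ i, constantCoeff (φ i) = 0) {f : MvPowerSeries (Fin n) ℂ}
    {F : ℕ → MvPowerSeries (Fin n) ℂ} (hF : WW (B1 f) F) :
    WW (B1 (subst φ f)) (fun s => subst φ (F s)) := by
  have hs := hasSubst_of_constantCoeff_zero hφ0
  induction hF with
  | base i =>
    have h1 : (fun s => subst φ (B1 f i s)) = B1 (subst φ f) i := by
      funext s
      exact subst_pow hs f (s + 1)
    rw [h1]
    exact WW.base i
  | zero =>
    have h1 : (fun _ : ℕ => subst φ (0 : MvPowerSeries (Fin n) ℂ)) =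
        fun _ => (0 : MvPowerSeries (Fin n) ℂ) := by
      funext s
      rw [← coe_substAlgHom hs, map_zero]
    rw [h1]
    exact WW.zero
  | add _ _ h1 h2 => simpa only [subst_add hs] using h1.add h2
  | op Q hQ _ h1 =>
    obtain ⟨Q', h2, h3⟩ := transport hφ hφ0 Q hQ
    simpa only [h3] using h1.op Q' h2
  | smulS _ h1 =>
    convert h1.smulS using 2 with s
    rw [← coe_substAlgHom hs, map_smul]

theorem coordB {φ : Fin n → MvPowerSeries (Fin n) ℂ} (hφ : IsCoord φ)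
    (hφ0 : ∀ i, constantCoeff (φ i) = 0) {f : MvPowerSeries (Fin n) ℂ} {b : Polynomial ℂ}
    (hb : IsFormalBFunction f b) : IsFormalBFunction (subst φ f) b := by
  have hs := hasSubst_of_constantCoeff_zero hφ0
  rw [formal_iff] at hb ⊢
  convert coord hφ hφ0 hb using 2 with s
  rw [← coe_substAlgHom hs, map_smul, map_pow]

open Pool.Agent.Y229.GL (RR pdW)
open Pool.Agent.H628R4.TP (weylS)

lemma RR_pd {g : MvPolynomial (Fin n) ℂ} {F : ℕ → MvPowerSeries (Fin n) ℂ}
    (hF : RR g F) (i : Fin n) : RR g (fun s => pderiv ℂ i (F s)) := by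
  obtain ⟨L, hL⟩ := hF
  refine ⟨(L.map fun x => (x.1, pderiv ℂ i x.2.1, x.2.2)) ++
    L.map fun x => (x.1, x.2.1, pdW i * x.2.2), fun s => ?_⟩
  show pderiv ℂ i (F s) = _
  rw [hL, map_list_sum, List.map_map, List.map_append, List.sum_append,
    List.map_map, List.map_map, ← Pool.Agent.Y229.GL.sum_map_add']
  congr 1
  refine List.map_congr_left fun x _ => ?_
  simp only [Function.comp_apply]
  rw [Derivation.leibniz, pderiv_C, smul_zero, add_zero, smul_eq_mul, Derivation.leibniz,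
    smul_eq_mul, smul_eq_mul, MvPowerSeries.pderiv_coe, mul_add, add_comm]
  congr 1
  rw [mul_comm (pderiv ℂ i x.2.1)]

lemma RR_op {g : MvPolynomial (Fin n) ℂ} (Q : Module.End ℂ (MvPowerSeries (Fin n) ℂ))
    (hQ : Q ∈ DD n) : ∀ {F : ℕ → MvPowerSeries (Fin n) ℂ}, RR g F → RR g (fun s => Q (F s)) := by
  unfold DD at hQ
  induction hQ using Algebra.adjoin_induction with
  | mem P hP =>
    intro F hF
    rcases hP with ⟨u, rfl⟩ | ⟨i, rfl⟩
    · exact Pool.Agent.Y229.RE.RR.mulPS hF u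
    · exact RR_pd hF i
  | algebraMap c =>
    intro F hF
    have h1 := Pool.Agent.Y229.RE.RR.mulPS hF (MvPowerSeries.C c)
    convert h1 using 2 with s
    rw [Module.algebraMap_end_apply, MvPowerSeries.smul_eq_C_mul]
  | add P Q _ _ hP hQ =>
    intro F hF
    exact Pool.Agent.Y229.GL.RR.add (hP hF) (hQ hF)
  | mul P Q _ _ hP hQ =>
    intro F hF
    exact hP (hQ hF)

lemma RR_of_WW {g : MvPolynomial (Fin n) ℂ} {F : ℕ → MvPowerSeries (Fin n) ℂ}
    (hF : WW (B1 (g : MvPowerSeries (Fin n) ℂ)) F) : RR g F := by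
  induction hF with
  | base i => exact ⟨[(0, 1, 1)], fun s => by simp [B1]⟩
  | zero => exact ⟨[], fun s => by simp⟩
  | add _ _ h1 h2 => exact Pool.Agent.Y229.GL.RR.add h1 h2
  | op Q hQ _ h1 => exact RR_op Q hQ h1
  | smulS _ h1 =>
    obtain ⟨L, hL⟩ := h1
    refine ⟨L.map fun x => (x.1 + 1, x.2), fun s => ?_⟩
    beta_reduce
    rw [hL, List.smul_sum, List.map_map, List.map_map]
    congr 1
    refine List.map_congr_left fun x _ => ?_
    simp only [Function.comp_apply]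
    rw [MvPowerSeries.smul_eq_C_mul, pow_succ (s : ℂ) x.1, mul_comm ((s : ℂ) ^ x.1) (s : ℂ),
      map_mul (MvPowerSeries.C (σ := Fin n)) (s : ℂ), mul_assoc]

/-- **For polynomials.** -/
theorem local_of_formal {g : MvPolynomial (Fin n) ℂ} {b : Polynomial ℂ}
    (hb : IsFormalBFunction (g : MvPowerSeries (Fin n) ℂ) b) :
    Pool.Agent.H628R4.TP.IsLocalBFunction g b := by
  rw [formal_iff] at hb
  obtain ⟨L, hL⟩ := RR_of_WW hb
  refine ⟨L.length, fun i => (L.get i).1, fun i => (L.get i).2.1, fun i => (L.get i).2.2,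
    fun s => ?_⟩
  have h6 := hL s
  rw [MvPolynomial.coe_pow, ← MvPowerSeries.smul_eq_C_mul]
  refine h6.trans ?_
  rw [← List.sum_ofFn]
  congr 1
  conv_lhs => rw [← List.ofFn_get L, List.map_ofFn]
  rfl

/-- operators of the Weyl algebra as operators on power series -/
lemma weyl_DD (W : Module.End ℂ (MvPolynomial (Fin n) ℂ)) (hW : W ∈ weylS (Fin n)) :
    ∃ Q ∈ DD n, ∀ p : MvPolynomial (Fin n) ℂ,
      ((W p : MvPolynomial (Fin n) ℂ) : MvPowerSeries (Fin n) ℂ) =
        Q (p : MvPowerSeries (Fin n) ℂ) := by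
  unfold weylS at hW
  induction hW using Algebra.adjoin_induction with
  | mem P hP =>
    rcases hP with ⟨i, rfl⟩ | ⟨i, rfl⟩
    · refine ⟨_, mul_mem (X i), fun p => ?_⟩
      rw [LinearMap.mulLeft_apply, LinearMap.mulLeft_apply, MvPolynomial.coe_mul,
        MvPolynomial.coe_X]
    · exact ⟨_, pl_mem i, fun p => (MvPowerSeries.pderiv_coe p).symm⟩
  | algebraMap c =>
    refine ⟨algebraMap ℂ _ c, Subalgebra.algebraMap_mem _ c, fun p => ?_⟩
    rw [Module.algebraMap_end_apply, Module.algebraMap_end_apply, MvPolynomial.coe_smul]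
  | add P Q _ _ hP hQ =>
    obtain ⟨P', h1, h2⟩ := hP
    obtain ⟨Q', h3, h4⟩ := hQ
    refine ⟨P' + Q', Subalgebra.add_mem _ h1 h3, fun p => ?_⟩
    rw [LinearMap.add_apply, MvPolynomial.coe_add, h2, h4, LinearMap.add_apply]
  | mul P Q _ _ hP hQ =>
    obtain ⟨P', h1, h2⟩ := hP
    obtain ⟨Q', h3, h4⟩ := hQ
    refine ⟨P' * Q', Subalgebra.mul_mem _ h1 h3, fun p => ?_⟩
    rw [Module.End.mul_apply, h2, h4, Module.End.mul_apply]

theorem formal_of_local {g : MvPolynomial (Fin n) ℂ} {b : Polynomial ℂ}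
    (hb : Pool.Agent.H628R4.TP.IsLocalBFunction g b) :
    IsFormalBFunction (g : MvPowerSeries (Fin n) ℂ) b := by
  rw [formal_iff]
  obtain ⟨L, m, a, Q, h⟩ := hb
  have h1 : WW (B1 (g : MvPowerSeries (Fin n) ℂ)) (fun s => ∑ i,
      ((s : ℂ) ^ m i) • (a i * (((Q i : Module.End ℂ (MvPolynomial (Fin n) ℂ)) (g ^ (s + 1)) :
        MvPolynomial (Fin n) ℂ) : MvPowerSeries (Fin n) ℂ))) := by
    refine WW.sum _ _ fun i _ => ?_
    obtain ⟨Q', h2, h3⟩ := weyl_DD _ (Q i).2
    have h4 : ∀ m' : ℕ, WW (B1 (g : MvPowerSeries (Fin n) ℂ)) (fun s =>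
        ((s : ℂ) ^ m') • (a i * (((Q i : Module.End ℂ (MvPolynomial (Fin n) ℂ)) (g ^ (s + 1)) :
          MvPolynomial (Fin n) ℂ) : MvPowerSeries (Fin n) ℂ))) := by
      intro m'
      induction m' with
      | zero =>
        convert ((WW.base (B := B1 (g : MvPowerSeries (Fin n) ℂ)) ()).op Q' h2).mulL (a i)
          using 2 with s
        rw [pow_zero, one_smul, h3, MvPolynomial.coe_pow]
        rfl
      | succ m' ih =>
        convert ih.smulS using 2 with s
        rw [smul_smul, pow_succ, mul_comm]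
    exact h4 (m i)
  convert h1 using 2 with s
  rw [MvPowerSeries.smul_eq_C_mul, ← MvPolynomial.coe_pow, h s]
  refine Finset.sum_congr rfl fun i _ => ?_
  rw [MvPowerSeries.smul_eq_C_mul]

end Pool.Agent.Y229.PS
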