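import Pool.Agent.Y229.PS.Main
import Pool.Agent.Y229.RE.Emb2

set_option autoImplicit false

/-! Formal power series on smooth complete intersections. -/

namespace Pool.Agent.Y229.PS

open MvPowerSeries
open Pool.Agent.W749.JI (fam)
open Pool.Agent.W425.SM (sparse)
open Pool.Agent.Y229.CF (NondegIC NondegC)
open Pool.Agent.Y229.GL (IsCoord)
open Pool.Agent.Y229.RE

variable {N k r : ℕ}

/-- the change of coordinates `z_i ↦ l_i`, `y_i ↦ y_i + q_i` -/
noncomputable def PhiP (q l : Fin k → MvPowerSeries (Fin (N + k)) ℂ) :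
    Fin (N + (k + k)) → MvPowerSeries (Fin (N + (k + k))) ℂ :=
  Fin.append (fun i => X (xv k i)) (Fin.append (fun i => X (yv N i) + rename emb (q i))
    (fun i => rename emb (l i)))

lemma PhiP_x (q l : Fin k → MvPowerSeries (Fin (N + k)) ℂ) (i : Fin N) :
    PhiP q l (xv k i) = X (xv k i) := by
  unfold PhiP xv
  rw [Fin.append_left]

lemma PhiP_y (q l : Fin k → MvPowerSeries (Fin (N + k)) ℂ) (i : Fin k) :
    PhiP q l (yv N i) = X (yv N i) + rename emb (q i) := by
  unfold PhiP yv
  rw [Fin.append_right, Fin.append_left]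

lemma PhiP_z (q l : Fin k → MvPowerSeries (Fin (N + k)) ℂ) (i : Fin k) :
    PhiP q l (zv N i) = rename emb (l i) := by
  unfold PhiP zv
  rw [Fin.append_right, Fin.append_right]

lemma PhiP_zero (q l : Fin k → MvPowerSeries (Fin (N + k)) ℂ)
    (hq : ∀ i, constantCoeff (q i) = 0) (hl : ∀ i, constantCoeff (l i) = 0) (i) :
    constantCoeff (PhiP q l i) = 0 := by
  refine Fin.addCases (fun i => ?_) (fun i => ?_) i
  · rw [show PhiP q l (Fin.castAdd (k + k) i) = X (xv k i) from PhiP_x q l i, constantCoeff_X]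
  · refine Fin.addCases (fun i => ?_) (fun i => ?_) i
    · rw [show PhiP q l (Fin.natAdd N (Fin.castAdd k i)) = X (yv N i) + rename emb (q i) from
        PhiP_y q l i, map_add, constantCoeff_X, constantCoeff_rename, hq, add_zero]
    · rw [show PhiP q l (Fin.natAdd N (Fin.natAdd k i)) = rename emb (l i) from
        PhiP_z q l i, constantCoeff_rename, hl]

lemma subst_stabP (f : MvPowerSeries (Fin N) ℂ) (q l : Fin k → MvPowerSeries (Fin (N + k)) ℂ)
    (hq : ∀ i, constantCoeff (q i) = 0) (hl : ∀ i, constantCoeff (l i) = 0) :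
    subst (PhiP q l) (stabP f k) = rename emb (rename (Fin.castAdd k) f + ∑ i, q i * l i) +
      ∑ i, X (yv N i) * rename emb (l i) := by
  have h0 := PhiP_zero q l hq hl
  have hs := hasSubst_of_constantCoeff_zero h0
  unfold stabP
  rw [subst_add hs, map_add, map_sum, rename_rename]
  have h1 : subst (PhiP q l) (rename (Fin.castAdd (k + k)) f) =
      rename (emb ∘ Fin.castAdd k) f := by
    rw [rename_eq_subst, rename_eq_subst, subst_comp_subst_apply (HasSubst.X_comp _) hs]
    congr 1
    funext i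
    rw [Function.comp_apply, subst_X hs, Function.comp_apply, Function.comp_apply, emb_l]
    exact PhiP_x q l i
  have h2 : subst (PhiP q l) (∑ i : Fin k, (X (Fin.natAdd N (Fin.castAdd k i)) :
      MvPowerSeries (Fin (N + (k + k))) ℂ) * X (Fin.natAdd N (Fin.natAdd k i))) = ∑ i : Fin k, (X (yv N i) + rename emb (q i)) *
        rename emb (l i) := by
    rw [← coe_substAlgHom hs, map_sum]
    refine Finset.sum_congr rfl fun i _ => ?_
    rw [map_mul, coe_substAlgHom hs, subst_X hs, subst_X hs,
      show PhiP q l (Fin.natAdd N (Fin.castAdd k i)) = X (yv N i) + rename emb (q i) from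
        PhiP_y q l i,
      show PhiP q l (Fin.natAdd N (Fin.natAdd k i)) = rename emb (l i) from PhiP_z q l i]
  rw [h1, h2, add_assoc, ← Finset.sum_add_distrib]
  congr 1
  refine Finset.sum_congr rfl fun i _ => ?_
  rw [map_mul]
  ring

lemma coeff_rnP (p : MvPowerSeries (Fin (N + k)) ℂ) (i : Fin (N + k)) :
    coeff (Finsupp.single (emb i) 1) (rename emb p) = coeff (Finsupp.single i 1) p := by
  have h := coeff_embDomain_rename (⟨emb, emb_inj⟩ : Fin (N + k) ↪ Fin (N + (k + k))) p
    (Finsupp.single i 1)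
  rwa [Finsupp.embDomain_single] at h

lemma coeff_rnP_y (p : MvPowerSeries (Fin (N + k)) ℂ) (j : Fin k) :
    coeff (Finsupp.single (yv N j) 1) (rename emb p) = 0 := by
  refine coeff_rename_eq_zero _ _ ?_
  rintro ⟨u, hu⟩
  have h1 := DFunLike.congr_fun hu (yv N j)
  rw [Finsupp.single_eq_same, Finsupp.mapDomain_of_notMem_range _ _ (by
    rintro ⟨i, hi⟩
    exact emb_ne_y i j hi)] at h1
  exact zero_ne_one h1

/-- the change of coordinates is invertible at the origin -/
lemma coord_PhiP (q l : Fin k → MvPowerSeries (Fin (N + k)) ℂ)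
    (hdet : (Matrix.of fun i j => coeff (Finsupp.single (Fin.natAdd N j) 1) (l i)).det ≠ 0) :
    IsCoord (PhiP q l) := by
  classical
  unfold IsCoord
  intro h0
  obtain ⟨u, hu, hMu⟩ := Matrix.exists_mulVec_eq_zero_iff.2 h0
  have hrow : ∀ i, ∑ j, coeff (Finsupp.single j 1) (PhiP q l i) * u j = 0 := by
    intro i
    have h1 := congrFun hMu i
    rw [Matrix.mulVec, dotProduct] at h1
    simp only [Matrix.of_apply, Pi.zero_apply] at h1
    exact h1
  have hsplit : ∀ (F : Fin (N + (k + k)) → ℂ), ∑ j, F j = ∑ j : Fin N, F (xv k j) +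
      (∑ j : Fin k, F (yv N j) + ∑ j : Fin k, F (zv N j)) := by
    intro F
    rw [Fin.sum_univ_add, Fin.sum_univ_add]
    rfl
  have hXX : ∀ i j : Fin (N + (k + k)), coeff (Finsupp.single j 1)
      (X i : MvPowerSeries (Fin (N + (k + k))) ℂ) = if i = j then 1 else 0 := by
    intro i j
    rw [coeff_X]
    by_cases h : i = j
    · subst h
      simp
    · rw [if_neg h, if_neg]
      intro h2
      exact h (Finsupp.single_left_injective one_ne_zero h2).symm
  have hx : ∀ i : Fin N, u (xv k i) = 0 := by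
    intro i
    have h1 := hrow (xv k i)
    rw [PhiP_x, Finset.sum_eq_single (xv k i)] at h1
    · rwa [hXX, if_pos rfl, one_mul] at h1
    · intro j _ hj
      rw [hXX, if_neg hj.symm, zero_mul]
    · intro h
      exact absurd (Finset.mem_univ _) h
  have hz : ∀ i : Fin k, u (zv N i) = 0 := by
    by_contra hcon
    push Not at hcon
    obtain ⟨i0, hi0⟩ := hcon
    apply hdet
    refine Matrix.exists_mulVec_eq_zero_iff.1 ⟨fun i => u (zv N i), ?_, ?_⟩
    · intro h
      exact hi0 (congrFun h i0)
    · funext i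
      rw [Matrix.mulVec, dotProduct]
      simp only [Matrix.of_apply, Pi.zero_apply]
      have h1 := hrow (zv N i)
      rw [PhiP_z, hsplit] at h1
      simp only [hx, mul_zero, Finset.sum_const_zero, zero_add, coeff_rnP_y, zero_mul] at h1
      rw [← h1]
      refine Finset.sum_congr rfl fun j _ => ?_
      rw [← emb_r j, coeff_rnP]
  have hy : ∀ i : Fin k, u (yv N i) = 0 := by
    intro i
    have h1 := hrow (yv N i)
    rw [PhiP_y, hsplit] at h1
    simp only [hx, hz, mul_zero, Finset.sum_const_zero, zero_add, add_zero, map_add,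
      coeff_rnP_y, hXX] at h1
    rw [Finset.sum_eq_single i] at h1
    · rwa [if_pos rfl, one_mul] at h1
    · intro j _ hj
      rw [if_neg (fun h => hj (y_inj h).symm), zero_mul]
    · intro h
      exact absurd (Finset.mem_univ _) h
  apply hu
  funext i
  rw [Pi.zero_apply]
  refine Fin.addCases (fun i => hx i) (fun i => ?_) i
  exact Fin.addCases (fun i => hy i) (fun i => hz i) i

lemma const_coe {n : ℕ} (p : MvPolynomial (Fin n) ℂ) :
    constantCoeff (p : MvPowerSeries (Fin n) ℂ) = MvPolynomial.constantCoeff p := by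
  rw [← coeff_zero_eq_constantCoeff_apply, MvPolynomial.coeff_coe, MvPolynomial.constantCoeff_eq]

/-- **Functions on smooth complete intersections.** -/
theorem becomes_emb (G : Fin (k + 1) → MvPolynomial (Fin (N + k)) ℂ)
    (hG0 : ∀ i : Fin k, MvPolynomial.constantCoeff (G i.succ) = 0)
    (hdet : (Matrix.of fun i j : Fin k => MvPolynomial.coeff (Finsupp.single (Fin.natAdd N j) 1)
      (G i.succ)).det ≠ 0)
    (f : MvPowerSeries (Fin N) ℂ) (q : Fin k → MvPowerSeries (Fin (N + k)) ℂ)
    (hq : ∀ i, constantCoeff (q i) = 0)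
    (hF : (G 0 : MvPowerSeries (Fin (N + k)) ℂ) = rename (Fin.castAdd k) f +
      ∑ i, q i * (G i.succ : MvPowerSeries (Fin (N + k)) ℂ)) :
    Becomes f k (MvPolynomial.rename emb (G 0) +
      ∑ i : Fin k, MvPolynomial.X (yv N i) * MvPolynomial.rename emb (G i.succ)) := by
  have hl : ∀ i : Fin k, constantCoeff (G i.succ : MvPowerSeries (Fin (N + k)) ℂ) = 0 :=
    fun i => by rw [const_coe, hG0]
  refine ⟨PhiP q (fun i => (G i.succ : MvPowerSeries (Fin (N + k)) ℂ)), 1, coord_PhiP _ _ ?_,
    PhiP_zero _ _ hq hl, isUnit_one, ?_⟩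
  · simpa only [MvPolynomial.coeff_coe] using hdet
  · rw [subst_stabP f q _ hq hl, ← hF, rename_coe]
    have h1 : (∑ i : Fin k, MvPolynomial.X (yv N i) * MvPolynomial.rename emb (G i.succ) :
        MvPolynomial (Fin (N + (k + k))) ℂ).toMvPowerSeries =
        ∑ i : Fin k, X (yv N i) * rename emb (G i.succ : MvPowerSeries (Fin (N + k)) ℂ) := by
      rw [← MvPolynomial.coeToMvPowerSeries.ringHom_apply, map_sum]
      refine Finset.sum_congr rfl fun i _ => ?_
      rw [map_mul, MvPolynomial.coeToMvPowerSeries.ringHom_apply,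
        MvPolynomial.coeToMvPowerSeries.ringHom_apply, MvPolynomial.coe_X, rename_coe]
    rw [MvPolynomial.coe_add, h1, one_mul]

end Pool.Agent.Y229.PS
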