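import Pool.Agent.Y229.PS.Unit
import Pool.Agent.Y229.RE.Main
import Pool.Agent.W425.GN.Top

set_option autoImplicit false

/-! Formal power series which are stably nondegenerate: main theorems. -/

namespace Pool.Agent.Y229.PS

open Pool.Agent.H628R4.TZ Pool.Agent.H628R4.TP Pool.Agent.W425.SM
  Pool.Agent.W425.SG Pool.Agent.W422.GC Pool.Agent.W425.ND Pool.Agent.Y229.CF Pool.Agent.Y229.GL
open Pool.Agent.Y229.RE (sep_stab unstab reg_unstab shiftZ shiftZ_poly)

variable {N k r : ℕ}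

/-- `f(x) + y_1 z_1 + ⋯ + y_k z_k` -/
noncomputable def stabP (f : MvPowerSeries (Fin N) ℂ) (k : ℕ) :
    MvPowerSeries (Fin (N + (k + k))) ℂ :=
  MvPowerSeries.rename (Fin.castAdd (k + k)) f +
    ∑ i : Fin k, MvPowerSeries.X (Fin.natAdd N (Fin.castAdd k i)) *
      MvPowerSeries.X (Fin.natAdd N (Fin.natAdd k i))

/-- `f(x) + y_1 z_1 + ⋯ + y_k z_k` becomes the polynomial `g` in suitable formal coordinates `φ` at the
origin, up to a factor `u` which is a unit. -/
def Becomes (f : MvPowerSeries (Fin N) ℂ) (k : ℕ) (g : MvPolynomial (Fin (N + (k + k))) ℂ) :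
    Prop :=
  ∃ (φ : Fin (N + (k + k)) → MvPowerSeries (Fin (N + (k + k))) ℂ)
    (u : MvPowerSeries (Fin (N + (k + k))) ℂ), IsCoord φ ∧
    (∀ i, MvPowerSeries.constantCoeff (φ i) = 0) ∧ IsUnit u ∧
    MvPowerSeries.subst φ (stabP f k) = u * (g : MvPowerSeries (Fin (N + (k + k))) ℂ)

lemma exists_factor {b : Polynomial ℂ} (hb : b.eval (-1) = 0) :
    ∃ c : Polynomial ℂ, b = (Polynomial.X + 1) * c := by
  obtain ⟨c, hc⟩ := Polynomial.dvd_iff_isRoot.2 (show b.IsRoot (-1) from hb)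
  refine ⟨c, ?_⟩
  rw [hc, Polynomial.C_neg, Polynomial.C_1, sub_neg_eq_add]

/-- **The functional equation of `g`.** -/
theorem becomes_local {f : MvPowerSeries (Fin N) ℂ} (hf0 : f ≠ 0)
    (hf : MvPowerSeries.constantCoeff f = 0) {b : Polynomial ℂ} (hb : IsFormalBFunction f b)
    {k : ℕ} {g : MvPolynomial (Fin (N + (k + k))) ℂ} (hg : Becomes f k g) :
    b.eval (-1) = 0 ∧ ∀ c : Polynomial ℂ, b = (Polynomial.X + 1) * c →
      Pool.Agent.H628R4.TP.IsLocalBFunction g ((Polynomial.X + 1) *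
        c.comp (Polynomial.X + Polynomial.C (k : ℂ))) := by
  obtain ⟨h1, h2⟩ := reduced hf0 hf (formal_iff.1 hb)
  refine ⟨h1, fun c hc => ?_⟩
  obtain ⟨φ, u, hφ, hφ0, hu, h3⟩ := hg
  obtain ⟨u, rfl⟩ := hu
  refine local_of_formal (formal_of_unit (Units.inv_mul u) ?_)
  rw [← h3]
  exact coordB hφ hφ0 (formal_iff.2 (unreduced (red_stab sep_stab f c (h2 c hc))))

open Polynomial

/-- regularity away from the roots, for a stably nondegenerate function -/
theorem local_reg (f : MvPowerSeries (Fin N) ℂ) (hf0 : f ≠ 0)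
    (hf : MvPowerSeries.constantCoeff f = 0) (b : ℂ[X]) (hb0 : b ≠ 0)
    (hb : IsFormalBFunction f b) (k : ℕ) (hr : 1 ≤ r)
    (v : Fin r → Fin (N + (k + k)) → ℕ) (a : Fin r → ℂ)
    (hv : Function.Injective v) (hv0 : ∀ j, v j ≠ 0) (hnd : NondegC v a)
    (hg : Becomes f k (sparse v a))
    (R : SmoothFan (N + (k + k))) (hR : Principal v R) (e : ℕ) (he : 1 ≤ e) (s0 : ℂ)
    (hre : s0.re < 0) (hs : ∀ i : ℕ, b.eval (s0 - i) ≠ 0) :
    Reg s0 (unstab k e (topZetaTwistedLocal v R e)) := by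
  obtain ⟨hb1, hB⟩ := becomes_local hf0 hf hb hg
  obtain ⟨c, hc⟩ := exists_factor hb1
  have hc0 : c ≠ 0 := by
    rintro rfl
    rw [mul_zero] at hc
    exact hb0 hc
  have h1 : s0 ≠ -1 := by
    rintro rfl
    have h2 := hs 0
    rw [Nat.cast_zero, sub_zero] at h2
    exact h2 hb1
  refine reg_unstab ?_ h1 ?_
  · refine tw_reg hr v a hv hv0 hnd R hR ((X + 1) * c.comp (X + C (k : ℂ))) ?_
      (hB c hc) e he _ fun i => ?_
    · refine mul_ne_zero ?_ ?_
      · intro h0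
        have := congrArg (Polynomial.eval 0) h0
        simp at this
      · intro h0
        apply hc0
        have := congrArg (fun q : ℂ[X] => q.comp (X - C (k : ℂ))) h0
        simpa [Polynomial.comp_assoc] using this
    · rw [eval_mul, eval_comp, eval_add, eval_add, eval_X, eval_C, eval_one]
      refine mul_ne_zero ?_ ?_
      · intro h0
        have h2 : s0 = (k : ℂ) + i - 1 := by linear_combination h0
        rcases Nat.eq_zero_or_pos (k + i) with h3 | h3
        · have h4 : (k : ℂ) + i = 0 := by exact_mod_cast congrArg (Nat.cast : ℕ → ℂ) h3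
          apply h1
          rw [h2, h4]
          ring
        · have h5 : s0.re = (k : ℝ) + i - 1 := by rw [h2]; simp
          have h6 : (1 : ℝ) ≤ (k : ℝ) + i := by exact_mod_cast h3
          linarith
      · have h7 : s0 - (k : ℂ) - (i : ℂ) + (k : ℂ) = s0 - i := by ring
        rw [h7]
        have h8 := hs i
        rw [hc, eval_mul] at h8
        exact right_ne_zero_of_mul h8
  · rintro rfl
    rw [Complex.natCast_re] at hre
    have : (0 : ℝ) ≤ k := Nat.cast_nonneg k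
    linarith

lemma ratX_ne (z : ℂ) : (RatFunc.X - RatFunc.C z : RatFunc ℂ) ≠ 0 := by
  intro h
  have h1 : algebraMap ℂ[X] (RatFunc ℂ) (X - C z) = algebraMap ℂ[X] (RatFunc ℂ) 0 := by
    rw [map_sub, RatFunc.algebraMap_X, RatFunc.algebraMap_C, h, map_zero]
  exact X_sub_C_ne_zero z (RatFunc.algebraMap_injective _ h1)

/-- the passage from `g` to `f` -/
theorem unstab_poly {Z : RatFunc ℂ} {k : ℕ} {c P : ℂ[X]}
    (h : algebraMap ℂ[X] (RatFunc ℂ) ((X + 1) * c.comp (X + C (k : ℂ))) * Z =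
      algebraMap ℂ[X] (RatFunc ℂ) P) :
    ∃ P' : ℂ[X], algebraMap ℂ[X] (RatFunc ℂ) ((X + 1) * c * (X - C (k : ℂ))) * unstab k 1 Z =
      algebraMap ℂ[X] (RatFunc ℂ) P' := by
  have h1 := congrArg (shiftZ k) h
  rw [map_mul, shiftZ_poly, shiftZ_poly] at h1
  have h2 : ((X + 1) * c.comp (X + C (k : ℂ)) : ℂ[X]).comp (X - C (k : ℂ)) =
      (X - C (k : ℂ) + 1) * c := by
    rw [mul_comp, comp_assoc]
    simp
  rw [h2] at h1
  refine ⟨(X + 1) * c * (X - C (k : ℂ)) - X * ((X - C (k : ℂ) + 1) * c - P.comp (X - C (k : ℂ))),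
    ?_⟩
  unfold unstab
  rw [if_pos rfl]
  have hk := ratX_ne (k : ℂ)
  have h1' : (RatFunc.X + 1 : RatFunc ℂ) ≠ 0 := by
    have := ratX_ne (-1)
    rwa [map_neg, map_one, sub_neg_eq_add] at this
  simp only [map_sub, map_mul, map_add, map_one, RatFunc.algebraMap_X, RatFunc.algebraMap_C]
    at h1 ⊢
  rw [← h1]
  field_simp

/-- **Generic coefficients.** -/
theorem strong {M : ℕ} (hr : 1 ≤ r) (F : Subfield ℂ) (v : Fin r → Fin M → ℕ)
    (hv : Function.Injective v) (hv0 : ∀ j, v j ≠ 0)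
    (h : MvPolynomial (Fin M) F) (hh : ∀ w ∈ h.support, Pool.Agent.W425.SV.NP v w) :
    ∃ g : MvPolynomial (Fin r) F, g ≠ 0 ∧ ∀ a : Fin r → ℂ, MvPolynomial.aeval a g ≠ 0 →
      ∀ (N k : ℕ) (e : M = N + (k + k)) (f : MvPowerSeries (Fin N) ℂ), f ≠ 0 →
        MvPowerSeries.constantCoeff f = 0 →
        Becomes f k (MvPolynomial.rename (Fin.cast e)
          (sparse v a + MvPolynomial.map (algebraMap F ℂ) h)) →
      ∀ b : ℂ[X], IsFormalBFunction f b → ∀ R : SmoothFan M, Principal v R →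
        ∃ P : ℂ[X], algebraMap ℂ[X] (RatFunc ℂ) (b * (X - C (k : ℂ))) *
          unstab k 1 (topZetaGLocal v R) = algebraMap ℂ[X] (RatFunc ℂ) P := by
  obtain ⟨g, hg0, hg⟩ := Pool.Agent.W425.GN.gen_topL hr v hv hv0 h hh
  refine ⟨g, hg0, fun a ha N k e f hf0 hf hB b hb R hR => ?_⟩
  subst e
  obtain ⟨hb1, h1⟩ := becomes_local hf0 hf hb hB
  obtain ⟨c, rfl⟩ := exists_factor hb1
  have h2 := h1 c rfl
  have h3 : (Fin.cast (rfl : N + (k + k) = N + (k + k))) = id := by
    funext i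
    rfl
  rw [h3, MvPolynomial.rename_id_apply] at h2
  obtain ⟨P, hP⟩ := (hg a ha).2 _ h2 R hR
  exact unstab_poly hP

end Pool.Agent.Y229.PS
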