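import Pool.Agent.Y229.PS.Emb
import Pool.Agent.Y229.RE.Glob

set_option autoImplicit false

/-! Stably nondegenerate formal power series: the weak monodromy conjecture. -/

namespace Pool.Agent.Y229.PS

open Pool.Agent.H628R4.TZ Pool.Agent.H628R4.TP Pool.Agent.W425.SM
  Pool.Agent.W425.SG Pool.Agent.W422.GC Pool.Agent.W425.ND Pool.Agent.Y229.CF Pool.Agent.Y229.GL
open Pool.Agent.Y229.RE
open Pool.Agent.W749.JI (fam)

variable {N k r : ℕ}

/-- `f` is stably nondegenerate, with the exponents `v`: `f(x) + y_1 z_1 + ⋯ + y_k z_k` becomes in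
suitable formal coordinates at the origin, up to a unit factor, a polynomial `∑_j a_j X ^ (v_j)` which is nondegenerate with
respect to the compact faces of its Newton polyhedron. -/
def StabNondegP (f : MvPowerSeries (Fin N) ℂ) (k : ℕ) (v : Fin r → Fin (N + (k + k)) → ℕ) :
    Prop :=
  Function.Injective v ∧ (∀ j, v j ≠ 0) ∧ ∃ a : Fin r → ℂ, NondegC v a ∧ Becomes f k (sparse v a)

/-- **Criterion: functions on smooth complete intersections.** -/
theorem stabP_of_emb (hr : 1 ≤ r) (π : Fin r → Fin (k + 1)) (m : Fin r → Fin (N + k) → ℕ)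
    (hinj : ∀ j j', π j = π j' → m j = m j' → j = j') (hm : ∀ j, m j ≠ 0) (c : Fin r → ℂ)
    (hnd : NondegIC π m c)
    (hdet : (Matrix.of fun i j : Fin k => MvPolynomial.coeff (Finsupp.single (Fin.natAdd N j) 1)
      (fam π m c i.succ)).det ≠ 0)
    (f : MvPowerSeries (Fin N) ℂ) (q : Fin k → MvPowerSeries (Fin (N + k)) ℂ)
    (hq : ∀ i, MvPowerSeries.constantCoeff (q i) = 0)
    (hF : (fam π m c 0 : MvPowerSeries (Fin (N + k)) ℂ) =
      MvPowerSeries.rename (Fin.castAdd k) f +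
        ∑ i, q i * (fam π m c i.succ : MvPowerSeries (Fin (N + k)) ℂ)) :
    StabNondegP f k (ex π m) := by
  refine ⟨ex_inj π m hinj, ex_ne_zero π m hm, c, embC π m c hr hnd, ?_⟩
  rw [sparse_ex]
  refine becomes_emb (fam π m c) (fun i => ?_) hdet f q hq hF
  unfold fam
  rw [map_sum]
  refine Finset.sum_eq_zero fun j _ => ?_
  rw [map_mul, map_prod]
  obtain ⟨v, hv⟩ : ∃ v, m j v ≠ 0 := by
    by_contra hcon
    push Not at hcon
    exact hm j (funext hcon)
  rw [Finset.prod_eq_zero (Finset.mem_univ v), mul_zero]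
  rw [map_pow, MvPolynomial.constantCoeff_X, zero_pow hv]

/-- **The local theorem.** -/
theorem local_stabP (f : MvPowerSeries (Fin N) ℂ) (hf0 : f ≠ 0)
    (hf : MvPowerSeries.constantCoeff f = 0) (b : Polynomial ℂ) (hb0 : b ≠ 0)
    (hb : IsFormalBFunction f b) (k : ℕ) (hr : 1 ≤ r)
    (v : Fin r → Fin (N + (k + k)) → ℕ) (hv : StabNondegP f k v)
    (R : SmoothFan (N + (k + k))) (hR : Principal v R) (e : ℕ) (he : 1 ≤ e) (s0 : ℂ)
    (hre : s0.re < 0) (hs : ∀ i : ℕ, b.eval (s0 - i) ≠ 0) :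
    Reg s0 (unstab k e (topZetaTwistedLocal v R e)) := by
  obtain ⟨hv1, hv0, a, hnd, hg⟩ := hv
  exact local_reg f hf0 hf b hb0 hb k hr v a hv1 hv0 hnd hg R hR e he s0 hre hs

/-- **Finitely many germs.** -/
theorem germs_stabP {m : ℕ} {N : Fin m → ℕ} (f : ∀ t, MvPowerSeries (Fin (N t)) ℂ)
    (hf0 : ∀ t, f t ≠ 0)
    (hf : ∀ t, MvPowerSeries.constantCoeff (f t) = 0) (b : Fin m → Polynomial ℂ)
    (hb0 : ∀ t, b t ≠ 0) (hb : ∀ t, IsFormalBFunction (f t) (b t))
    (k r : Fin m → ℕ) (hr : ∀ t, 1 ≤ r t) (v : ∀ t, Fin (r t) → Fin (N t + (k t + k t)) → ℕ)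
    (hv : ∀ t, StabNondegP (f t) (k t) (v t))
    (R : ∀ t, SmoothFan (N t + (k t + k t))) (hR : ∀ t, Principal (v t) (R t)) (e : ℕ)
    (he : 1 ≤ e) (c c' : ℤ) (χ : Fin m → ℤ) (s0 : ℂ) (hre : s0.re < 0)
    (hs : (glue e c c' χ fun t => unstab (k t) e
      (topZetaTwistedLocal (v t) (R t) e)).denom.eval s0 = 0) :
    (e = 1 ∧ s0 = -1) ∨ ∃ t, ∃ i : ℕ, (b t).eval (s0 - i) = 0 := by
  by_contra hcon
  push Not at hcon
  refine (reg_glue e c c' χ _ s0 (fun h h' => hcon.1 h h') fun t => ?_).denom hs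
  exact local_stabP (f t) (hf0 t) (hf t) (b t) (hb0 t) (hb t) (k t) (hr t) (v t) (hv t) (R t)
    (hR t) e he s0 hre (hcon.2 t)

lemma coe_ne_zero {n : ℕ} {p : MvPolynomial (Fin n) ℂ} (hp : p ≠ 0) :
    (p : MvPowerSeries (Fin n) ℂ) ≠ 0 := by
  intro h
  exact hp (MvPolynomial.coe_injective _ _ (by rw [h, MvPolynomial.coe_zero]))

/-- **Polynomials on affine space whose germs are stably nondegenerate.** -/
theorem global_stabP {m : ℕ} (f : MvPolynomial (Fin N) ℂ) (hf : f.totalDegree ≠ 0)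
    (b : Polynomial ℂ) (hb0 : b ≠ 0) (hb : IsBFunction f b) (p : Fin m → Fin N → ℂ)
    (hp : ∀ t, MvPolynomial.eval (p t) f = 0) (k r : Fin m → ℕ) (hr : ∀ t, 1 ≤ r t)
    (v : ∀ t, Fin (r t) → Fin (N + (k t + k t)) → ℕ)
    (hv : ∀ t, StabNondegP (trans (p t) f : MvPowerSeries (Fin N) ℂ) (k t) (v t))
    (R : ∀ t, SmoothFan (N + (k t + k t))) (hR : ∀ t, Principal (v t) (R t))
    (c c' : ℤ) (χ : Fin m → ℤ) (s0 : ℂ) (hre : s0.re < 0)
    (hs : (glue 1 c c' χ fun t => unstab (k t) 1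
      (topZetaGLocal (v t) (R t))).denom.eval s0 = 0) :
    ∃ i : ℕ, b.eval (s0 - i) = 0 := by
  by_contra hcon
  push Not at hcon
  have hb1 := root_neg_one f hf b hb
  have hf0 : f ≠ 0 := by
    rintro rfl
    exact hf MvPolynomial.totalDegree_zero
  refine (reg_glue 1 c c' χ _ s0 (fun _ h => ?_) fun t => ?_).denom hs
  · have h1 := hcon 0
    rw [h, Nat.cast_zero, sub_zero] at h1
    exact h1 hb1
  · have h1 := local_stabP (trans (p t) f : MvPowerSeries (Fin N) ℂ)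
      (coe_ne_zero (trans_ne_zero _ hf0)) (by rw [const_coe, trans_const, hp t]) b hb0
      (formal_of_local (trans_local (p t) hb)) (k t) (hr t) (v t) (hv t) (R t) (hR t) 1 le_rfl
      s0 hre hcon
    rwa [tw_one] at h1

end Pool.Agent.Y229.PS
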