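import Pool.Agent.Y229.PS.Chain
import Pool.Agent.Y229.RE.Stab

set_option autoImplicit false

/-! The functional equation of `f + ∑ y_i z_i` for a formal power series `f`. -/

namespace Pool.Agent.Y229.PS

open MvPowerSeries
open Pool.Agent.Y229.RE (Sep aeval_eig)

variable {N M k : ℕ} {ι : Fin N → Fin M} {y z : Fin k → Fin M}

/-- Operators in the variables `x` extend. -/
lemma extend (hι : Function.Injective ι)
    (P : Module.End ℂ (MvPowerSeries (Fin N) ℂ)) (hP : P ∈ DD N) :
    ∃ P' : Module.End ℂ (MvPowerSeries (Fin M) ℂ), P' ∈ DD M ∧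
      ∀ (u : MvPowerSeries (Fin N) ℂ) (w : MvPowerSeries (Fin M) ℂ),
        (∀ i, pderiv ℂ (ι i) w = 0) → P' (rename ι u * w) = rename ι (P u) * w := by
  unfold DD at hP
  induction hP using Algebra.adjoin_induction with
  | mem P hP =>
    rcases hP with ⟨v, rfl⟩ | ⟨i, rfl⟩
    · refine ⟨LinearMap.mulLeft ℂ (rename ι v), mul_mem _, fun u w _ => ?_⟩
      rw [LinearMap.mulLeft_apply, LinearMap.mulLeft_apply, map_mul, mul_assoc]
    · refine ⟨pl (ι i), pl_mem (ι i), fun u w hw => ?_⟩
      show pderiv ℂ (ι i) (rename ι u * w) = rename ι (pderiv ℂ i u) * w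
      rw [Derivation.leibniz, hw i, smul_zero, zero_add, smul_eq_mul, pd_rename hι, mul_comm]
  | algebraMap c =>
    refine ⟨algebraMap ℂ _ c, Subalgebra.algebraMap_mem _ c, fun u w _ => ?_⟩
    rw [Module.algebraMap_end_apply, Module.algebraMap_end_apply, map_smul, smul_mul_assoc]
  | add P Q _ _ hP hQ =>
    obtain ⟨P', h1, h2⟩ := hP
    obtain ⟨Q', h3, h4⟩ := hQ
    refine ⟨P' + Q', Subalgebra.add_mem _ h1 h3, fun u w hw => ?_⟩
    rw [LinearMap.add_apply, h2 u w hw, h4 u w hw, LinearMap.add_apply, map_add, add_mul]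
  | mul P Q _ _ hP hQ =>
    obtain ⟨P', h1, h2⟩ := hP
    obtain ⟨Q', h3, h4⟩ := hQ
    refine ⟨P' * Q', Subalgebra.mul_mem _ h1 h3, fun u w hw => ?_⟩
    rw [Module.End.mul_apply, h4 u w hw, h2 _ w hw, Module.End.mul_apply]

/-- `∑ y_i ∂_{y_i}` -/
noncomputable def Th (y : Fin k → Fin M) : Module.End ℂ (MvPowerSeries (Fin M) ℂ) :=
  ∑ i, LinearMap.mulLeft ℂ (X (y i) : MvPowerSeries (Fin M) ℂ) * pl (y i)

lemma Th_mem (y : Fin k → Fin M) : Th y ∈ DD M :=
  Subalgebra.sum_mem _ fun _ _ => Subalgebra.mul_mem _ (mul_mem _) (pl_mem _)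

lemma Th_apply (y : Fin k → Fin M) (u : MvPowerSeries (Fin M) ℂ) :
    Th y u = ∑ i, X (y i) * pderiv ℂ (y i) u := by
  unfold Th
  rw [LinearMap.sum_apply]
  rfl

lemma Th_mul (y : Fin k → Fin M) (u w : MvPowerSeries (Fin M) ℂ) :
    Th y (u * w) = u * Th y w + Th y u * w := by
  rw [Th_apply, Th_apply, Th_apply, Finset.mul_sum, Finset.sum_mul, ← Finset.sum_add_distrib]
  refine Finset.sum_congr rfl fun i _ => ?_
  rw [Derivation.leibniz, smul_eq_mul, smul_eq_mul]
  ring

/-- `∑ y_i z_i` -/
noncomputable def qq (y z : Fin k → Fin M) : MvPowerSeries (Fin M) ℂ := ∑ i, X (y i) * X (z i)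

lemma pd_y (h : Sep ι y z) (i : Fin k) : pderiv ℂ (y i) (qq y z) = X (z i) := by
  classical
  unfold qq
  rw [map_sum, Finset.sum_eq_single i]
  · rw [Derivation.leibniz, pderiv_X_self, pderiv_X_of_ne (h.n3 i i).symm, smul_zero, smul_eq_mul,
      zero_add, mul_one]
  · intro j _ hj
    rw [Derivation.leibniz, pderiv_X_of_ne (fun e => hj (h.i2 e)),
      pderiv_X_of_ne (h.n3 i j).symm, smul_zero, smul_zero, add_zero]
  · intro hi
    exact absurd (Finset.mem_univ i) hi

lemma pd_z (h : Sep ι y z) (i : Fin k) : pderiv ℂ (z i) (qq y z) = X (y i) := by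
  classical
  unfold qq
  rw [map_sum, Finset.sum_eq_single i]
  · rw [Derivation.leibniz, pderiv_X_self, pderiv_X_of_ne (h.n3 i i), smul_zero, smul_eq_mul,
      add_zero, mul_one]
  · intro j _ hj
    rw [Derivation.leibniz, pderiv_X_of_ne (fun e => hj (h.i3 e)),
      pderiv_X_of_ne (h.n3 j i), smul_zero, smul_zero, add_zero]
  · intro hi
    exact absurd (Finset.mem_univ i) hi

lemma pd_x (h : Sep ι y z) (i : Fin N) : pderiv ℂ (ι i) (qq y z) = 0 := by
  unfold qq
  rw [map_sum]
  refine Finset.sum_eq_zero fun j _ => ?_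
  rw [Derivation.leibniz, pderiv_X_of_ne (h.n1 i j).symm, pderiv_X_of_ne (h.n2 i j).symm,
    smul_zero, smul_zero, add_zero]

lemma Th_q (h : Sep ι y z) : Th y (qq y z) = qq y z := by
  rw [Th_apply]
  conv_rhs => unfold qq
  exact Finset.sum_congr rfl fun _ _ => by rw [pd_y h]

lemma Th_rn (h : Sep ι y z) (u : MvPowerSeries (Fin N) ℂ) : Th y (rename ι u) = 0 := by
  rw [Th_apply]
  exact Finset.sum_eq_zero fun i _ => by rw [pd_rename_ne (fun j => h.n1 j i), mul_zero]

lemma Th_eig (h : Sep ι y z) (u : MvPowerSeries (Fin N) ℂ) (j : ℕ) :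
    Th y (rename ι u * qq y z ^ j) = (j : ℂ) • (rename ι u * qq y z ^ j) := by
  have h1 : Th y (qq y z ^ j) = (j : ℂ) • (qq y z ^ j) := by
    induction j with
    | zero =>
      rw [pow_zero, Nat.cast_zero, zero_smul, Th_apply]
      exact Finset.sum_eq_zero fun i _ => by rw [pderiv_one, mul_zero]
    | succ j ih =>
      rw [pow_succ, Th_mul, ih, Th_q h, smul_mul_assoc, Nat.cast_succ, add_smul, one_smul, add_comm]
  rw [Th_mul, Th_rn h, h1, zero_mul, add_zero, mul_smul_comm]

/-- `s - ∑ y_i ∂_{y_i}` -/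
noncomputable def TT (y : Fin k → Fin M) (s : ℂ) : Module.End ℂ (MvPowerSeries (Fin M) ℂ) :=
  algebraMap ℂ _ s - Th y

lemma TT_apply (y : Fin k → Fin M) (s : ℂ) (u : MvPowerSeries (Fin M) ℂ) :
    TT y s u = s • u - Th y u := by
  unfold TT
  rw [LinearMap.sub_apply, Module.algebraMap_end_apply]

lemma TT_eig (h : Sep ι y z) (s : ℂ) (u : MvPowerSeries (Fin N) ℂ) (j : ℕ) :
    TT y s (rename ι u * qq y z ^ j) = (s - j) • (rename ι u * qq y z ^ j) := by
  rw [TT_apply, Th_eig h, sub_smul]

section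

variable {κ : Type} {B : κ → ℕ → MvPowerSeries (Fin M) ℂ} {F : ℕ → MvPowerSeries (Fin M) ℂ}

lemma WW.T1 (hF : WW B F) (y : Fin k → Fin M) : WW B (fun s => TT y (s : ℂ) (F s)) := by
  have h2 := hF.smulS.sub (hF.op (Th y) (Th_mem y))
  convert h2 using 2 with s
  rw [TT_apply]

lemma WW.Tn (hF : WW B F) (y : Fin k → Fin M) (n : ℕ) :
    WW B (fun s => (TT y (s : ℂ) ^ n) (F s)) := by
  induction n with
  | zero => simpa using hF
  | succ n ih =>
    convert ih.T1 y using 2 with s
    rw [pow_succ', Module.End.mul_apply]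

end

lemma pow_expand (ι : Fin N → Fin M) (y z : Fin k → Fin M) (f a : MvPowerSeries (Fin N) ℂ)
    (s : ℕ) : rename ι a * (rename ι f + qq y z) ^ s =
      ∑ j ∈ Finset.range (s + 1), ((s.choose j : ℕ) : ℂ) • (rename ι (a * f ^ (s - j)) *
        qq y z ^ j) := by
  rw [add_comm, add_pow, Finset.mul_sum]
  refine Finset.sum_congr rfl fun j _ => ?_
  rw [map_mul, map_pow, smul_eq_C_mul, map_natCast]
  ring

/-- the sequence `∑_j (s choose j) F(s - j) q ^ j` -/
noncomputable def LF (ι : Fin N → Fin M) (y z : Fin k → Fin M)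
    (F : ℕ → MvPowerSeries (Fin N) ℂ) (s : ℕ) : MvPowerSeries (Fin M) ℂ :=
  ∑ j ∈ Finset.range (s + 1), ((s.choose j : ℕ) : ℂ) • (rename ι (F (s - j)) * qq y z ^ j)

theorem lift (h : Sep ι y z) (f : MvPowerSeries (Fin N) ℂ) {F : ℕ → MvPowerSeries (Fin N) ℂ}
    (hF : WW (B2 f) F) : WW (B2 (rename ι f + qq y z)) (LF ι y z F) := by
  induction hF with
  | base i =>
    cases i with
    | none =>
      have h1 : WW (B2 (rename ι f + qq y z)) (fun s => B2 (rename ι f + qq y z) none s -
          ∑ i, X (y i) * B2 (rename ι f + qq y z) (some (y i)) s) :=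
        (WW.base (B := B2 (rename ι f + qq y z)) none).sub (WW.sum _ _ fun i _ =>
          (WW.base (B := B2 (rename ι f + qq y z)) (some (y i))).mulL _)
      convert h1 using 1
      funext s
      have h2 : LF ι y z (B2 f none) s = rename ι f * (rename ι f + qq y z) ^ s := by
        rw [pow_expand]
        unfold LF
        refine Finset.sum_congr rfl fun j _ => ?_
        rw [show B2 f none (s - j) = f * f ^ (s - j) from pow_succ' f (s - j)]
      have h3 : ∀ i, B2 (rename ι f + qq y z) (some (y i)) s =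
          X (z i) * (rename ι f + qq y z) ^ s := by
        intro i
        show pderiv ℂ (y i) (rename ι f + qq y z) * (rename ι f + qq y z) ^ s = _
        rw [map_add, pd_rename_ne (fun j => h.n1 j i), pd_y h, zero_add]
      rw [h2, show B2 (rename ι f + qq y z) none s =
        (rename ι f + qq y z) ^ s * (rename ι f + qq y z) from pow_succ _ _]
      have h4 : ∑ i, X (y i) * B2 (rename ι f + qq y z) (some (y i)) s =
          qq y z * (rename ι f + qq y z) ^ s := by
        conv_rhs => unfold qq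
        rw [Finset.sum_mul]
        refine Finset.sum_congr rfl fun i _ => ?_
        rw [h3, mul_assoc]
        rfl
      rw [h4]
      ring
    | some i =>
      have h1 := WW.base (B := B2 (rename ι f + qq y z)) (some (ι i))
      convert h1 using 1
      funext s
      show LF ι y z (B2 f (some i)) s = pderiv ℂ (ι i) (rename ι f + qq y z) *
        (rename ι f + qq y z) ^ s
      rw [map_add, pd_rename h.i1, pd_x h, add_zero, pow_expand]
      rfl
  | zero =>
    convert WW.zero (B := B2 (rename ι f + qq y z)) using 1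
    funext s
    unfold LF
    refine Finset.sum_eq_zero fun j _ => ?_
    rw [map_zero, zero_mul, smul_zero]
  | add _ _ h1 h2 =>
    convert h1.add h2 using 1
    funext s
    unfold LF
    rw [← Finset.sum_add_distrib]
    refine Finset.sum_congr rfl fun j _ => ?_
    rw [map_add, add_mul, smul_add]
  | op Q hQ _ h1 =>
    obtain ⟨Q', hQ', h2⟩ := extend h.i1 Q hQ
    convert h1.op Q' hQ' using 1
    funext s
    unfold LF
    rw [map_sum]
    refine Finset.sum_congr rfl fun j _ => ?_
    rw [map_smul, h2]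
    intro i
    rw [Derivation.leibniz_pow, pd_x h, smul_zero, smul_zero]
  | smulS _ h1 =>
    convert h1.T1 y using 1
    funext s
    unfold LF
    rw [map_sum]
    refine Finset.sum_congr rfl fun j hj => ?_
    have hjs : j ≤ s := by rw [Finset.mem_range] at hj; omega
    have hc : ((s - j : ℕ) : ℂ) = (s : ℂ) - j := by push_cast [hjs]; ring
    rw [map_smul (TT y (s : ℂ)), TT_eig h, map_smul, hc, smul_mul_assoc]

lemma LF_c (h : Sep ι y z) (f : MvPowerSeries (Fin N) ℂ) (c : Polynomial ℂ) (s : ℕ) :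
    LF ι y z (fun s => c.eval (s : ℂ) • f ^ s) s =
      Polynomial.aeval (TT y (s : ℂ)) c ((rename ι f + qq y z) ^ s) := by
  have h1 := pow_expand ι y z f 1 s
  rw [map_one, one_mul] at h1
  rw [h1, map_sum]
  unfold LF
  refine Finset.sum_congr rfl fun j hj => ?_
  have hjs : j ≤ s := by rw [Finset.mem_range] at hj; omega
  have hc : ((s - j : ℕ) : ℂ) = (s : ℂ) - j := by push_cast [hjs]; ring
  rw [map_smul (Polynomial.aeval (TT y (s : ℂ)) c), aeval_eig _ _ _ (TT_eig h (s : ℂ) _ j),
    one_mul, map_smul, hc, smul_mul_assoc]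

lemma main_E (h : Sep ι y z) (f : MvPowerSeries (Fin N) ℂ) :
    WW (B2 (rename ι f + qq y z)) (fun s => ((s : ℂ) + k) • (rename ι f + qq y z) ^ s -
        TT y (s : ℂ) ((rename ι f + qq y z) ^ s)) := by
  set g := rename ι f + qq y z with hg
  have hgz : ∀ i, pderiv ℂ (z i) g = X (y i) := fun i => by
    rw [hg, map_add, pd_rename_ne (fun j => h.n2 j i), pd_z h, zero_add]
  have h1 : WW (B2 g) (fun s => ∑ i : Fin k, pl (y i) (B2 g (some (z i)) s)) :=
    WW.sum _ _ fun i _ => (WW.base (B := B2 g) (some (z i))).op _ (pl_mem (y i))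
  convert h1 using 2 with s
  have h2 : ∀ i : Fin k, pl (y i) (B2 g (some (z i)) s) =
      g ^ s + X (y i) * pderiv ℂ (y i) (g ^ s) := by
    intro i
    show pderiv ℂ (y i) (pderiv ℂ (z i) g * g ^ s) = _
    rw [hgz, Derivation.leibniz, pderiv_X_self, smul_eq_mul, smul_eq_mul, mul_one, add_comm]
  rw [Finset.sum_congr rfl fun i _ => h2 i, Finset.sum_add_distrib, ← Th_apply,
    Finset.sum_const, Finset.card_univ, Fintype.card_fin, ← Nat.cast_smul_eq_nsmul ℂ, TT_apply]
  module

lemma main2 (h : Sep ι y z) (f : MvPowerSeries (Fin N) ℂ) (c : Polynomial ℂ) :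
    WW (B2 (rename ι f + qq y z)) (fun s =>
      c.eval ((s : ℂ) + k) • (rename ι f + qq y z) ^ s -
        Polynomial.aeval (TT y (s : ℂ)) c ((rename ι f + qq y z) ^ s)) := by
  set g := rename ι f + qq y z with hg
  have h1 : ∀ n : ℕ, WW (B2 g) (fun s =>
      ((s : ℂ) + k) ^ n • g ^ s - (TT y (s : ℂ) ^ n) (g ^ s)) := by
    intro n
    induction n with
    | zero => simpa using WW.zero (B := B2 g)
    | succ n ih =>
      have h2 := ((ih.smulS).add (ih.smulC (k : ℂ))).add ((main_E h f).Tn y n)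
      rw [← hg] at h2
      convert h2 using 2 with s
      rw [map_sub, map_smul, pow_succ (TT y (s : ℂ)), Module.End.mul_apply, pow_succ]
      module
  induction c using Polynomial.induction_on' with
  | add p q hp hq =>
    convert hp.add hq using 2 with s
    rw [map_add, LinearMap.add_apply, Polynomial.eval_add]
    module
  | monomial n c =>
    convert (h1 n).smulC c using 2 with s
    rw [Polynomial.aeval_monomial, Module.End.mul_apply, Module.algebraMap_end_apply,
      Polynomial.eval_monomial]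
    module

/-- **The reduced functional equation of `f + ∑ y_i z_i`.** -/
theorem red_stab (h : Sep ι y z) (f : MvPowerSeries (Fin N) ℂ) (c : Polynomial ℂ)
    (hc : WW (B2 f) (fun s => c.eval (s : ℂ) • f ^ s)) :
    WW (B2 (rename ι f + qq y z)) (fun s =>
      (c.comp (Polynomial.X + Polynomial.C (k : ℂ))).eval (s : ℂ) •
        (rename ι f + qq y z) ^ s) := by
  have h1 := (lift h f hc).add (main2 h f c)
  convert h1 using 2 with s
  rw [LF_c h, Polynomial.eval_comp, Polynomial.eval_add, Polynomial.eval_X, Polynomial.eval_C]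
  abel

end Pool.Agent.Y229.PS
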