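import Pool.Agent.Y229.PS.Coord

set_option autoImplicit false

/-! Functional equations of formal power series: multiplication by a unit. -/

namespace Pool.Agent.Y229.PS

open MvPowerSeries

variable {n : ℕ}

/-- conjugation with `u ^ s` -/
lemma conj_op {κ : Type} {B : κ → ℕ → MvPowerSeries (Fin n) ℂ} {u v : MvPowerSeries (Fin n) ℂ}
    (huv : v * u = 1) (Q : Module.End ℂ (MvPowerSeries (Fin n) ℂ)) (hQ : Q ∈ DD n) :
    ∀ {F : ℕ → MvPowerSeries (Fin n) ℂ}, WW B (fun s => u ^ s * F s) →
      WW B (fun s => u ^ s * Q (F s)) := by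
  unfold DD at hQ
  induction hQ using Algebra.adjoin_induction with
  | mem P hP =>
    intro F hF
    rcases hP with ⟨w, rfl⟩ | ⟨i, rfl⟩
    · convert hF.mulL w using 2 with s
      rw [LinearMap.mulLeft_apply]
      ring
    · have h1 := (hF.op (pl i) (pl_mem i)).sub ((hF.mulL (pderiv ℂ i u * v)).smulS)
      convert h1 using 2 with s
      show u ^ s * pderiv ℂ i (F s) = pderiv ℂ i (u ^ s * F s) - _
      rw [Derivation.leibniz, Derivation.leibniz_pow, smul_eq_mul, smul_eq_mul, smul_eq_mul,
        nsmul_eq_mul, Nat.cast_smul_eq_nsmul, nsmul_eq_mul]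
      cases s with
      | zero => simp
      | succ s =>
        rw [Nat.add_sub_cancel, pow_succ]
        linear_combination (F (s + 1) * ((s + 1 : ℕ) : MvPowerSeries (Fin n) ℂ) * u ^ s *
          pderiv ℂ i u) * huv
  | algebraMap c =>
    intro F hF
    convert hF.smulC c using 2 with s
    rw [Module.algebraMap_end_apply, mul_smul_comm]
  | add P Q _ _ hP hQ =>
    intro F hF
    convert (hP hF).add (hQ hF) using 2 with s
    rw [LinearMap.add_apply, mul_add]
  | mul P Q _ _ hP hQ =>
    intro F hF
    exact hP (hQ hF)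

lemma conj_WW {f u v : MvPowerSeries (Fin n) ℂ} (huv : v * u = 1)
    {F : ℕ → MvPowerSeries (Fin n) ℂ} (hF : WW (B1 f) F) :
    WW (B1 (u * f)) (fun s => u ^ s * F s) := by
  induction hF with
  | base i =>
    convert (WW.base (B := B1 (u * f)) ()).mulL v using 2 with s
    show u ^ s * f ^ (s + 1) = v * (u * f) ^ (s + 1)
    rw [mul_pow, pow_succ u]
    linear_combination (-(u ^ s * f ^ (s + 1))) * huv
  | zero =>
    convert WW.zero (B := B1 (u * f)) using 2 with s
    rw [mul_zero]
  | add _ _ h1 h2 =>
    convert h1.add h2 using 2 with s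
    rw [mul_add]
  | op Q hQ _ h1 => exact conj_op huv Q hQ h1
  | smulS _ h1 =>
    convert h1.smulS using 2 with s
    rw [mul_smul_comm]

/-- **Multiplication by a unit.** -/
theorem formal_unit {f u v : MvPowerSeries (Fin n) ℂ} (huv : v * u = 1) {b : Polynomial ℂ}
    (hb : IsFormalBFunction f b) : IsFormalBFunction (u * f) b := by
  rw [formal_iff] at hb ⊢
  convert conj_WW huv hb using 2 with s
  rw [mul_smul_comm, mul_pow]

theorem formal_of_unit {f u v : MvPowerSeries (Fin n) ℂ} (huv : v * u = 1) {b : Polynomial ℂ}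
    (hb : IsFormalBFunction (u * f) b) : IsFormalBFunction f b := by
  have h1 := formal_unit (u := v) (v := u) (by rw [mul_comm]; exact huv) hb
  rwa [← mul_assoc, huv, one_mul] at h1

end Pool.Agent.Y229.PS
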